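import Pool.Agent.Lib.MP_d55432_al.G2.Iface

/-!
# DIAG: diagonalisable elements of `g2` are conjugate into the torus
-/

namespace Pool.Agent.Lib.MP_d55432_al.G2.H75

open Matrix LieAlgebra

section

variable {K : Type*} [Field K]

theorem bb_add_left (x y z : V7 K) : bb (x + y) z = bb x z + bb y z := by
  simp only [bb, Pi.add_apply]
  ring

theorem bb_add_right (x y z : V7 K) : bb x (y + z) = bb x y + bb x z := by
  simp only [bb, Pi.add_apply]
  ring

theorem bb_smul_left (c : K) (x y : V7 K) : bb (c • x) y = c * bb x y := by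
  simp only [bb, Pi.smul_apply, smul_eq_mul]
  ring

theorem bb_smul_right (c : K) (x y : V7 K) : bb x (c • y) = c * bb x y := by
  simp only [bb, Pi.smul_apply, smul_eq_mul]
  ring

theorem bb_br_self (x y : V7 K) : bb x (br x y) = 0 := by
  simp [bb, br]
  ring

theorem bb_br_skew (e x y : V7 K) : bb (br e x) y + bb x (br e y) = 0 := by
  simp [bb, br]
  ring

theorem bb_nondeg [CharZero K] (w : V7 K) (h : ∀ y, bb w y = 0) : w = 0 := by
  have h0 := h (ee 0)
  have h1 := h (ee 1)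
  have h2 := h (ee 2)
  have h3 := h (ee 3)
  have h4 := h (ee 4)
  have h5 := h (ee 5)
  have h6 := h (ee 6)
  simp [bb, ee] at h0 h1 h2 h3 h4 h5 h6
  funext i
  fin_cases i
  · exact h0
  · exact h4
  · exact h5
  · exact h6
  · exact h1
  · exact h2
  · exact h3

theorem exists_eig {X : M7 K} (hX : IsDiag X) {M : Type*} [AddCommGroup M] [Module K M]
    (T : V7 K → M) (ha : ∀ x y, T (x + y) = T x + T y) (hs : ∀ (c : K) x, T (c • x) = c • T x)
    {x0 : V7 K} (h0 : T x0 ≠ 0) : ∃ (μ : K) (x : V7 K), X *ᵥ x = μ • x ∧ T x ≠ 0 := by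
  by_contra hc
  push Not at hc
  let L : V7 K →ₗ[K] M := { toFun := T, map_add' := ha, map_smul' := fun c x => hs c x }
  have hle : (⊤ : Submodule K (V7 K)) ≤ LinearMap.ker L := by
    rw [← hX]
    refine iSup_le fun μ x hx => ?_
    rw [Module.End.mem_eigenspace_iff] at hx
    exact hc μ x (by simpa [Matrix.toLin'_apply] using hx)
  exact h0 (hle (Submodule.mem_top : x0 ∈ ⊤))

/-- Projection on the eigenspace `2` of `br e`. -/
def Pp (e x : V7 K) : V7 K := (1 / 8 : K) • (br e (br e x) + (2 : K) • br e x)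

/-- Projection on the eigenspace `-2` of `br e`. -/
def Pm (e x : V7 K) : V7 K := (1 / 8 : K) • (br e (br e x) - (2 : K) • br e x)

theorem br3 (e x : V7 K) (he : qq e = 1) : br e (br e (br e x)) = (4 : K) • br e x := by
  rw [br_br e (br e x), bb_br_self, he]
  simp

theorem Pp_add (e x y : V7 K) : Pp e (x + y) = Pp e x + Pp e y := by
  simp only [Pp, br_add_right]
  module

theorem Pp_smul (e : V7 K) (c : K) (x : V7 K) : Pp e (c • x) = c • Pp e x := by
  simp only [Pp, br_smul_right]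
  module

theorem Pm_add (e x y : V7 K) : Pm e (x + y) = Pm e x + Pm e y := by
  simp only [Pm, br_add_right]
  module

theorem Pm_smul (e : V7 K) (c : K) (x : V7 K) : Pm e (c • x) = c • Pm e x := by
  simp only [Pm, br_smul_right]
  module

theorem br_Pp (e x : V7 K) (he : qq e = 1) : br e (Pp e x) = (2 : K) • Pp e x := by
  simp only [Pp, br_smul_right, br_add_right, br3 e x he]
  module

theorem br_sub_right (e x y : V7 K) : br e (x - y) = br e x - br e y := by
  rw [sub_eq_add_neg, br_add_right, ← neg_one_smul K y, br_smul_right, neg_one_smul,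
    ← sub_eq_add_neg]

theorem br_Pm (e x : V7 K) (he : qq e = 1) : br e (Pm e x) = -((2 : K) • Pm e x) := by
  simp only [Pm, br_smul_right, br_sub_right, br3 e x he]
  module

theorem decomp [CharZero K] (e x : V7 K) (he : qq e = 1) :
    x = Pp e x + Pm e x + (bb e x / 2) • e := by
  simp only [Pp, Pm, br_br e x, he]
  match_scalars <;> ring

theorem iso_p [CharZero K] {e x y : V7 K} (hx : br e x = (2 : K) • x) (hy : br e y = (2 : K) • y) :
    bb x y = 0 := by
  have h := bb_br_skew e x y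
  rw [hx, hy, bb_smul_left, bb_smul_right] at h
  have h4 : (4 : K) * bb x y = 0 := by linear_combination h
  rcases mul_eq_zero.1 h4 with h' | h'
  · norm_num at h'
  · exact h'

theorem iso_m [CharZero K] {e x y : V7 K} (hx : br e x = -((2 : K) • x))
    (hy : br e y = -((2 : K) • y)) : bb x y = 0 := by
  have h := bb_br_skew e x y
  rw [hx, hy, ← neg_smul, ← neg_smul, bb_smul_left, bb_smul_right] at h
  have h4 : (4 : K) * bb x y = 0 := by linear_combination -h
  rcases mul_eq_zero.1 h4 with h' | h'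
  · norm_num at h'
  · exact h'

theorem iso_e [CharZero K] {e x : V7 K} {c : K} (hc : c ≠ 0) (hx : br e x = c • x) :
    bb e x = 0 := by
  have h := bb_br_self e x
  rw [hx, bb_smul_right] at h
  exact (mul_eq_zero.1 h).resolve_left hc

theorem X_br {X : M7 K} (hX : X ∈ g2 K) {e : V7 K} (he : X *ᵥ e = 0) (x : V7 K) :
    X *ᵥ br e x = br e (X *ᵥ x) := by
  rw [(mem_g2 X).1 hX e x, he]
  have h : br (0 : V7 K) x = 0 := by simpa using br_smul_left (0 : K) x x
  rw [h, zero_add]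

theorem X_Pp {X : M7 K} (hX : X ∈ g2 K) {e : V7 K} (he : X *ᵥ e = 0) (x : V7 K) :
    X *ᵥ Pp e x = Pp e (X *ᵥ x) := by
  simp only [Pp, mulVec_smul, mulVec_add, X_br hX he]

theorem X_Pm {X : M7 K} (hX : X ∈ g2 K) {e : V7 K} (he : X *ᵥ e = 0) (x : V7 K) :
    X *ᵥ Pm e x = Pm e (X *ᵥ x) := by
  simp only [Pm, mulVec_smul, mulVec_sub, X_br hX he]

/-- The matrix of the bilinear form. -/
def BB (K : Type*) [Field K] : M7 K := !![
  2, 0, 0, 0, 0, 0, 0;
  0, 0, 0, 0, 1, 0, 0;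
  0, 0, 0, 0, 0, 1, 0;
  0, 0, 0, 0, 0, 0, 1;
  0, 1, 0, 0, 0, 0, 0;
  0, 0, 1, 0, 0, 0, 0;
  0, 0, 0, 1, 0, 0, 0]

/-- The inverse of `BB`. -/
def BI (K : Type*) [Field K] : M7 K := !![
  1 / 2, 0, 0, 0, 0, 0, 0;
  0, 0, 0, 0, 1, 0, 0;
  0, 0, 0, 0, 0, 1, 0;
  0, 0, 0, 0, 0, 0, 1;
  0, 1, 0, 0, 0, 0, 0;
  0, 0, 1, 0, 0, 0, 0;
  0, 0, 0, 1, 0, 0, 0]

theorem BB_mul [CharZero K] : BB K * BI K = 1 := by
  ext i j
  fin_cases i <;> fin_cases j <;> simp [BB, BI, Matrix.mul_apply, Fin.sum_univ_succ]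

theorem skew_mat (f : Fin 14 → K) : (gM f)ᵀ * BB K = -(BB K * gM f) := by
  ext i j
  fin_cases i <;> fin_cases j <;>
    simp [gM, BB, Matrix.mul_apply, Fin.sum_univ_succ] <;> ring

theorem exists_ker [CharZero K] (hP : PARAM_S K) {X : M7 K} (hX : X ∈ g2 K) :
    ∃ w : V7 K, w ≠ 0 ∧ X *ᵥ w = 0 := by
  obtain ⟨f, rfl⟩ := (hP X).1 hX
  apply Matrix.exists_mulVec_eq_zero_iff.2
  have hB : (BB K).det ≠ 0 := by
    intro h
    have h1 := congrArg Matrix.det (BB_mul (K := K))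
    rw [Matrix.det_mul, h, zero_mul, Matrix.det_one] at h1
    exact zero_ne_one h1
  have h := congrArg Matrix.det (skew_mat f)
  rw [Matrix.det_mul, Matrix.det_neg, Matrix.det_mul, Matrix.det_transpose, Fintype.card_fin] at h
  have h2 : (2 : K) * ((gM f).det * (BB K).det) = 0 := by linear_combination h
  rcases mul_eq_zero.1 h2 with h' | h'
  · norm_num at h'
  · exact (mul_eq_zero.1 h').resolve_right hB

end

section

variable (K : Type*) [Field K] [CharZero K] [IsAlgClosed K]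

theorem diag (hF : FRAME_S K) (hP : PARAM_S K) (hD : DER_S K) : DIAG_S K := by
  intro X hX hdiag
  obtain ⟨-, -, -, -, hsk, -⟩ := hD
  have hsk' : ∀ x y, bb (X *ᵥ x) y = -bb x (X *ᵥ y) := fun x y => by
    linear_combination hsk X hX x y
  -- orthogonality of eigenspaces
  have horth : ∀ {μ ν : K} {x y : V7 K}, X *ᵥ x = μ • x → X *ᵥ y = ν • y → μ + ν ≠ 0 →
      bb x y = 0 := by
    intro μ ν x y hx hy hne
    have h := hsk X hX x y
    rw [hx, hy, bb_smul_left, bb_smul_right, ← add_mul] at h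
    exact (mul_eq_zero.1 h).resolve_left hne
  -- a vector of norm one in the kernel
  obtain ⟨e, he1, hXe⟩ : ∃ e : V7 K, qq e = 1 ∧ X *ᵥ e = 0 := by
    obtain ⟨w, hw0, hXw⟩ := exists_ker hP hX
    obtain ⟨y0, hy0⟩ : ∃ y, bb w y ≠ 0 := by
      by_contra hc
      push Not at hc
      exact hw0 (bb_nondeg w hc)
    obtain ⟨ν, y, hXy, hwy⟩ := exists_eig hdiag (fun y => bb w y) (bb_add_right w)
      (fun c y => bb_smul_right c w y) hy0
    have hν : ν = 0 := by
      by_contra hν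
      exact hwy (horth (μ := 0) (by rw [hXw, zero_smul]) hXy (by rwa [zero_add]))
    have hXy0 : X *ᵥ y = 0 := by rw [hXy, hν, zero_smul]
    obtain ⟨e', he', hXe'⟩ : ∃ e' : V7 K, qq e' ≠ 0 ∧ X *ᵥ e' = 0 := by
      by_cases h1 : qq w = 0
      · by_cases h2 : qq y = 0
        · refine ⟨w + y, ?_, by rw [mulVec_add, hXw, hXy0, add_zero]⟩
          have : qq (w + y) = qq w + qq y + bb w y := by
            simp only [qq, bb, Pi.add_apply]
            ring
          rw [this, h1, h2, zero_add, zero_add]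
          exact hwy
        · exact ⟨y, h2, hXy0⟩
      · exact ⟨w, h1, hXw⟩
    obtain ⟨c, hc⟩ := IsAlgClosed.exists_pow_nat_eq (qq e') (n := 2) (by norm_num)
    have hc0 : c ≠ 0 := by
      rintro rfl
      apply he'
      rw [← hc]
      ring
    refine ⟨c⁻¹ • e', ?_, by rw [mulVec_smul, hXe', smul_zero]⟩
    have : qq (c⁻¹ • e') = c⁻¹ ^ 2 * qq e' := by
      simp only [qq, Pi.smul_apply, smul_eq_mul]
      ring
    rw [this, ← hc]
    field_simp
  have h2 : (2 : K) ≠ 0 := by norm_num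
  -- eigenvectors
  have hPpe : ∀ {μ : K} {x : V7 K}, X *ᵥ x = μ • x → X *ᵥ Pp e x = μ • Pp e x := by
    intro μ x hx
    rw [X_Pp hX hXe, hx, Pp_smul]
  have hPme : ∀ {μ : K} {x : V7 K}, X *ᵥ x = μ • x → X *ᵥ Pm e x = μ • Pm e x := by
    intro μ x hx
    rw [X_Pm hX hXe, hx, Pm_smul]
  -- orthogonality to `V_+`
  have hbp : ∀ {u : V7 K}, br e u = (2 : K) • u → ∀ y, bb u y = bb u (Pm e y) := by
    intro u hu y
    conv_lhs => rw [decomp e y he1]
    rw [bb_add_right, bb_add_right, iso_p hu (br_Pp e y he1), bb_smul_right, bb_comm u e,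
      iso_e h2 hu]
    ring
  have hbm : ∀ {v : V7 K}, br e v = -((2 : K) • v) → ∀ y, bb v y = bb v (Pp e y) := by
    intro v hv y
    conv_lhs => rw [decomp e y he1]
    rw [bb_add_right, bb_add_right, iso_m hv (br_Pm e y he1), bb_smul_right, bb_comm v e,
      iso_e (e := e) (x := v) (c := -2) (by norm_num) (by rw [hv, neg_smul])]
    ring
  -- first vector
  obtain ⟨x0, hx0⟩ : ∃ x, Pp e x ≠ 0 := by
    by_contra hc
    push Not at hc
    have hm : ∀ x, Pm e x = 0 := by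
      intro x
      apply bb_nondeg
      intro y
      rw [hbm (br_Pm e x he1), hc]
      simp [bb]
    have hsp : ∀ x, x = (bb e x / 2) • e := by
      intro x
      have := decomp e x he1
      rwa [hc, hm, zero_add, zero_add] at this
    have h1 := hsp (ee 0)
    have h3 := hsp (ee 1)
    have a1 := congrFun h1 1
    have a0 := congrFun h1 0
    have b1 := congrFun h3 1
    have b0 := congrFun h3 0
    simp [ee] at a0 a1 b0 b1
    rcases a1 with h | h
    · rw [h] at a0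
      simp at a0
    · rw [h] at b1
      simp at b1
  obtain ⟨μ₁, x₁, hx₁, hx₁0⟩ := exists_eig hdiag (Pp e) (Pp_add e) (Pp_smul e) hx0
  set u₁ := Pp e x₁ with hu₁
  have hXu₁ : X *ᵥ u₁ = μ₁ • u₁ := hPpe hx₁
  have hbu₁ : br e u₁ = (2 : K) • u₁ := br_Pp e x₁ he1
  -- dual vector
  obtain ⟨y0, hy0⟩ : ∃ y, bb u₁ (Pm e y) ≠ 0 := by
    by_contra hc
    push Not at hc
    exact hx₁0 (bb_nondeg _ fun y => by rw [hbp hbu₁, hc])
  obtain ⟨ν₁, y₁, hy₁, hy₁0⟩ := exists_eig hdiag (fun y => bb u₁ (Pm e y))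
    (fun x y => by simp only [Pm_add, bb_add_right])
    (fun c y => by simp only [Pm_smul, bb_smul_right, smul_eq_mul]) hy0
  obtain ⟨v₁, hXv₁, hbv₁, huv₁⟩ : ∃ v₁ : V7 K, X *ᵥ v₁ = ν₁ • v₁ ∧ br e v₁ = -((2 : K) • v₁) ∧
      bb u₁ v₁ = 1 := by
    refine ⟨(bb u₁ (Pm e y₁))⁻¹ • Pm e y₁, ?_, ?_, ?_⟩
    · rw [mulVec_smul, hPme hy₁, smul_comm]
    · rw [br_smul_right, br_Pm e y₁ he1]
      module
    · rw [bb_smul_right]
      exact inv_mul_cancel₀ hy₁0
  have hν₁ : ν₁ = -μ₁ := by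
    by_contra hne
    have : bb u₁ v₁ = 0 := horth hXu₁ hXv₁ (fun h => hne (by linear_combination h))
    rw [this] at huv₁
    exact zero_ne_one huv₁
  -- second vector
  obtain ⟨x0', hx0'⟩ : ∃ x, Pp e x - bb (Pp e x) v₁ • u₁ ≠ 0 := by
    by_contra hc
    push Not at hc
    have hm : ∀ y, Pm e y = bb (Pm e y) u₁ • v₁ := by
      intro y
      rw [← sub_eq_zero]
      apply bb_nondeg
      intro x
      have hv : br e (Pm e y - bb (Pm e y) u₁ • v₁) = -((2 : K) • (Pm e y - bb (Pm e y) u₁ • v₁)) := by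
        rw [br_sub_right, br_smul_right, br_Pm e y he1, hbv₁]
        module
      rw [hbm hv, sub_eq_zero.1 (hc x), bb_smul_right, sub_eq_add_neg, bb_add_left, ← neg_smul,
        bb_smul_left, bb_comm v₁ u₁, huv₁]
      ring
    have htop : Submodule.span K (Set.range ![e, u₁, v₁]) = ⊤ := by
      rw [eq_top_iff]
      intro x _
      rw [decomp e x he1, sub_eq_zero.1 (hc x), hm x]
      refine Submodule.add_mem _ (Submodule.add_mem _ (Submodule.smul_mem _ _ ?_)
        (Submodule.smul_mem _ _ ?_)) (Submodule.smul_mem _ _ ?_)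
      · exact Submodule.subset_span ⟨1, rfl⟩
      · exact Submodule.subset_span ⟨2, rfl⟩
      · exact Submodule.subset_span ⟨0, rfl⟩
    have hfr := finrank_range_le_card (R := K) ![e, u₁, v₁]
    rw [Set.finrank, htop, finrank_top, Module.finrank_fin_fun, Fintype.card_fin] at hfr
    omega
  -- the map
  have hTa : ∀ x y, Pp e (x + y) - bb (Pp e (x + y)) v₁ • u₁ =
      (Pp e x - bb (Pp e x) v₁ • u₁) + (Pp e y - bb (Pp e y) v₁ • u₁) := by
    intro x y
    rw [Pp_add, bb_add_left]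
    module
  have hTs : ∀ (c : K) x, Pp e (c • x) - bb (Pp e (c • x)) v₁ • u₁ =
      c • (Pp e x - bb (Pp e x) v₁ • u₁) := by
    intro c x
    rw [Pp_smul, bb_smul_left]
    module
  obtain ⟨μ₂, x₂, hx₂, hx₂0⟩ := exists_eig hdiag (fun x => Pp e x - bb (Pp e x) v₁ • u₁)
    hTa hTs hx0'
  set u₂ := Pp e x₂ - bb (Pp e x₂) v₁ • u₁ with hu₂
  have hXu₂ : X *ᵥ u₂ = μ₂ • u₂ := by
    have h1 : X *ᵥ Pp e x₂ = μ₂ • Pp e x₂ := hPpe hx₂
    by_cases h : bb (Pp e x₂) v₁ = 0
    · rw [hu₂, h, zero_smul, sub_zero, h1]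
    · have h3 : μ₂ = μ₁ := by
        by_contra hne
        apply h
        exact horth h1 hXv₁ (fun h' => hne (by rw [hν₁] at h'; linear_combination h'))
      rw [hu₂, mulVec_sub, mulVec_smul, h1, hXu₁, h3]
      module
  have hbu₂ : br e u₂ = (2 : K) • u₂ := by
    rw [hu₂, br_sub_right, br_smul_right, br_Pp e x₂ he1, hbu₁]
    module
  have huv₂₁ : bb u₂ v₁ = 0 := by
    rw [hu₂, sub_eq_add_neg, bb_add_left, ← neg_smul, bb_smul_left, huv₁]
    ring
  -- its dual vector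
  obtain ⟨y0', hy0'⟩ : ∃ y, bb u₂ (Pm e y) ≠ 0 := by
    by_contra hc
    push Not at hc
    exact hx₂0 (bb_nondeg _ fun y => by rw [hbp hbu₂, hc])
  obtain ⟨ν₂, y₂, hy₂, hy₂0⟩ := exists_eig hdiag (fun y => bb u₂ (Pm e y))
    (fun x y => by simp only [Pm_add, bb_add_right])
    (fun c y => by simp only [Pm_smul, bb_smul_right, smul_eq_mul]) hy0'
  obtain ⟨v₂, hXv₂, hbv₂, hu₁v₂, hu₂v₂⟩ : ∃ v₂ : V7 K, X *ᵥ v₂ = ν₂ • v₂ ∧
      br e v₂ = -((2 : K) • v₂) ∧ bb u₁ v₂ = 0 ∧ bb u₂ v₂ = 1 := by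
    set z := Pm e y₂ - bb u₁ (Pm e y₂) • v₁ with hz
    have hXz : X *ᵥ z = ν₂ • z := by
      have h1 : X *ᵥ Pm e y₂ = ν₂ • Pm e y₂ := hPme hy₂
      by_cases h : bb u₁ (Pm e y₂) = 0
      · rw [hz, h, zero_smul, sub_zero, h1]
      · have h3 : ν₂ = ν₁ := by
          by_contra hne
          apply h
          exact horth hXu₁ h1 (fun h' => hne (by rw [hν₁]; linear_combination h'))
        rw [hz, mulVec_sub, mulVec_smul, h1, hXv₁, h3]
        module
    have hbz : br e z = -((2 : K) • z) := by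
      rw [hz, br_sub_right, br_smul_right, br_Pm e y₂ he1, hbv₁]
      module
    have h1z : bb u₁ z = 0 := by
      rw [hz, sub_eq_add_neg, bb_add_right, ← neg_smul, bb_smul_right, huv₁]
      ring
    have h2z : bb u₂ z = bb u₂ (Pm e y₂) := by
      rw [hz, sub_eq_add_neg, bb_add_right, ← neg_smul, bb_smul_right, huv₂₁]
      ring
    refine ⟨(bb u₂ (Pm e y₂))⁻¹ • z, ?_, ?_, ?_, ?_⟩
    · rw [mulVec_smul, hXz, smul_comm]
    · rw [br_smul_right, hbz]
      module
    · rw [bb_smul_right, h1z, mul_zero]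
    · rw [bb_smul_right, h2z]
      exact inv_mul_cancel₀ hy₂0
  -- conjugation
  obtain ⟨g, h, H, hg0, hg1, hg2, hg4, hg5⟩ := hF e u₁ u₂ v₁ v₂ he1 hbu₁ hbu₂ hbv₁ hbv₂ huv₁
    hu₁v₂ huv₂₁ hu₂v₂
  have hY : h * X * g ∈ g2 K := conj_mem H.symm hX
  have hhg : ∀ z : V7 K, h *ᵥ (g *ᵥ z) = z := fun z => by
    rw [mulVec_mulVec, H.2.1, one_mulVec]
  have hYv : ∀ (z : V7 K) (c : K), X *ᵥ (g *ᵥ z) = c • (g *ᵥ z) → (h * X * g) *ᵥ z = c • z := by
    intro z c hz
    rw [← mulVec_mulVec, ← mulVec_mulVec, hz, mulVec_smul, hhg]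
  have e0 := hYv (ee 0) 0 (by rw [hg0, hXe, zero_smul])
  have e1 := hYv (ee 1) μ₁ (by rw [hg1, hXu₁])
  have e2 := hYv (ee 2) μ₂ (by rw [hg2, hXu₂])
  have e4 := hYv (ee 4) ν₁ (by rw [hg4, hXv₁])
  have e5 := hYv (ee 5) ν₂ (by rw [hg5, hXv₂])
  obtain ⟨f, hf⟩ := (hP _).1 hY
  rw [hf] at e0 e1 e2 e4 e5
  have col : ∀ (M : M7 K) (j i : Fin 7), (M *ᵥ ee j) i = M i j := by
    intro M j i
    simp [ee]
  have c0 : ∀ i, gM f i 0 = ((0 : K) • (ee 0 : V7 K)) i := fun i => by rw [← col (gM f) 0 i, e0]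
  have c1 : ∀ i, gM f i 1 = (μ₁ • (ee 1 : V7 K)) i := fun i => by rw [← col (gM f) 1 i, e1]
  have c2 : ∀ i, gM f i 2 = (μ₂ • (ee 2 : V7 K)) i := fun i => by rw [← col (gM f) 2 i, e2]
  have c4 : ∀ i, gM f i 4 = (ν₁ • (ee 4 : V7 K)) i := fun i => by rw [← col (gM f) 4 i, e4]
  have c5 : ∀ i, gM f i 5 = (ν₂ • (ee 5 : V7 K)) i := fun i => by rw [← col (gM f) 5 i, e5]
  have f8 : f 8 = 0 := by simpa [gM, ee, h2] using c0 1
  have f9 : f 9 = 0 := by simpa [gM, ee, h2] using c0 2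
  have f10 : f 10 = 0 := by simpa [gM, ee, h2] using c0 3
  have f11 : f 11 = 0 := by simpa [gM, ee, h2] using c0 4
  have f12 : f 12 = 0 := by simpa [gM, ee, h2] using c0 5
  have f13 : f 13 = 0 := by simpa [gM, ee, h2] using c0 6
  have f4 : f 4 = 0 := by simpa [gM, ee, h2] using c1 2
  have f6 : f 6 = 0 := by simpa [gM, ee, h2] using c1 3
  have f2 : f 2 = 0 := by simpa [gM, ee, h2] using c2 1
  have f7 : f 7 = 0 := by simpa [gM, ee, h2] using c2 3
  have f3 : f 3 = 0 := by simpa [gM, ee, h2] using c4 6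
  have f5 : f 5 = 0 := by simpa [gM, ee, h2] using c5 6
  have hfin : gM f = TT (f 0) (f 1) := by
    ext i j
    fin_cases i <;> fin_cases j <;>
      simp [gM, TT, f2, f3, f4, f5, f6, f7, f8, f9, f10, f11, f12, f13]
  refine ⟨f 0, f 1, g, h, H, ?_⟩
  rw [← hfin, ← hf]
  calc X = (g * h) * X * (g * h) := by rw [H.1, Matrix.one_mul, Matrix.mul_one]
    _ = g * (h * X * g) * h := by simp only [Matrix.mul_assoc]

end

end Pool.Agent.Lib.MP_d55432_al.G2.H75
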